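import Mathlib

/-!
In every finite colouring of the positive integers there are infinite sets `B, C` with `B + C`
monochromatic whose counting functions both exceed a prescribed function `H(N) = o(N)` for
infinitely many `N`.
-/

namespace Pool.Agent.Results.MP_870dc7_co.DenseSumsets

open Filter Asymptotics

/-- The counting function `B(N) = |B ∩ {1, ..., N}|`. -/
noncomputable def count (B : Set ℕ) (N : ℕ) : ℕ := (B ∩ Set.Icc 1 N).ncard

theorem count_finite (B : Set ℕ) (N : ℕ) : (B ∩ Set.Icc 1 N).Finite :=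
  (Set.finite_Icc 1 N).subset Set.inter_subset_right

theorem count_mono {A B : Set ℕ} (h : A ⊆ B) (N : ℕ) : count A N ≤ count B N :=
  Set.ncard_le_ncard (Set.inter_subset_inter_left _ h) (count_finite B N)

theorem count_union (A B : Set ℕ) (N : ℕ) : count (A ∪ B) N ≤ count A N + count B N := by
  unfold count
  rw [Set.union_inter_distrib_right]
  exact Set.ncard_union_le _ _

theorem count_univ (N : ℕ) : count Set.univ N = N := by
  unfold count
  rw [Set.univ_inter, ← Finset.coe_Icc, Set.ncard_coe_finset]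
  simp

theorem count_empty (N : ℕ) : count ∅ N = 0 := by
  unfold count
  simp

/-- Counting function negligible compared with `N`. -/
def Thin (A : Set ℕ) : Prop := (fun N : ℕ => (count A N : ℝ)) =o[atTop] (fun N : ℕ => (N : ℝ))

theorem thin_of_le {A : Set ℕ} {g : ℕ → ℝ} (hg : g =o[atTop] (fun N : ℕ => (N : ℝ)))
    (h : ∀ᶠ N in atTop, (count A N : ℝ) ≤ g N) : Thin A := by
  refine IsBigO.trans_isLittleO ?_ hg
  refine IsBigO.of_bound 1 ?_
  filter_upwards [h] with N hN
  rw [one_mul, Real.norm_of_nonneg (by positivity)]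
  exact le_trans hN (le_abs_self _)

/-- The filter of sets whose complement is thin. -/
def coThin : Filter ℕ where
  sets := {A | Thin Aᶜ}
  univ_sets := by
    show Thin _
    rw [Set.compl_univ]
    refine thin_of_le (g := fun _ => 0) (isLittleO_zero _ _) ?_
    filter_upwards with N
    rw [count_empty]; simp
  sets_of_superset := by
    intro A B hA hAB
    refine thin_of_le hA ?_
    filter_upwards with N
    exact_mod_cast count_mono (Set.compl_subset_compl.mpr hAB) N
  inter_sets := by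
    intro A B hA hB
    show Thin _
    rw [Set.compl_inter]
    refine thin_of_le (IsLittleO.add hA hB) ?_
    filter_upwards with N
    exact_mod_cast count_union Aᶜ Bᶜ N

theorem not_thin_univ : ¬ Thin Set.univ := by
  intro h
  have h1 : (fun N : ℕ => (N : ℝ)) =o[atTop] (fun N : ℕ => (N : ℝ)) := by
    have : (fun N : ℕ => (count Set.univ N : ℝ)) = (fun N : ℕ => (N : ℝ)) := by
      funext N; rw [count_univ]
    rw [Thin, this] at h
    exact h
  have h2 : ∃ᶠ N : ℕ in atTop, (N : ℝ) ≠ 0 := by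
    apply Eventually.frequently
    filter_upwards [eventually_gt_atTop 0] with N hN
    exact_mod_cast hN.ne'
  exact isLittleO_irrefl h2 h1

instance : NeBot coThin := by
  constructor
  intro h
  have : (∅ : Set ℕ) ∈ coThin := by rw [h]; exact mem_bot
  have h2 : Thin (∅ : Set ℕ)ᶜ := this
  rw [Set.compl_empty] at h2
  exact not_thin_univ h2

/-- An ultrafilter all of whose members are not thin. -/
noncomputable def q : Ultrafilter ℕ := Ultrafilter.of coThin

theorem not_thin {A : Set ℕ} (hA : A ∈ q) : ¬ Thin A := by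
  intro h
  have h1 : Aᶜ ∈ coThin := by
    show Thin Aᶜᶜ
    rw [compl_compl]; exact h
  have h2 : Aᶜ ∈ q := Ultrafilter.of_le coThin h1
  exact (Ultrafilter.compl_mem_iff_notMem.mp h2) hA

theorem frequently_count {A : Set ℕ} (hA : A ∈ q) (H : ℕ → ℕ)
    (hH : (fun N : ℕ => (H N : ℝ)) =o[atTop] (fun N : ℕ => (N : ℝ))) (n : ℕ) :
    ∃ N, n ≤ N ∧ H N + n ≤ count A N := by
  by_contra hcon
  push Not at hcon
  apply not_thin hA
  have h1 : (fun N : ℕ => (H N : ℝ) + (n : ℝ)) =o[atTop] (fun N : ℕ => (N : ℝ)) := by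
    refine hH.add ?_
    refine isLittleO_const_left.mpr (Or.inr ?_)
    have : (norm ∘ fun N : ℕ => (N : ℝ)) = fun N : ℕ => (N : ℝ) := by
      funext N; simp
    rw [this]
    exact tendsto_natCast_atTop_atTop
  refine thin_of_le h1 ?_
  filter_upwards [eventually_ge_atTop n] with N hN
  have := hcon N hN
  exact_mod_cast this.le

section Build

variable {κ : Type*} (χ : ℕ → κ) (i : κ)

/-- The elements `x` with `χ (x + y) = i` for `q`-most `y`. -/
def D : Set ℕ := {x | {y | χ (x + y) = i} ∈ q}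

/-- Finite approximations. -/
def Good (p : Finset ℕ × Finset ℕ) : Prop :=
  (∀ b ∈ p.1, b ∈ D χ i ∧ 0 < b) ∧ (∀ c ∈ p.2, c ∈ D χ i ∧ 0 < c) ∧
    ∀ b ∈ p.1, ∀ c ∈ p.2, χ (b + c) = i

theorem pos_mem : {y : ℕ | 0 < y} ∈ q := by
  apply Ultrafilter.of_le coThin
  show Thin _
  refine thin_of_le (g := fun _ => 0) (isLittleO_zero _ _) ?_
  filter_upwards with N
  have : count {y : ℕ | 0 < y}ᶜ N = 0 := by
    unfold count
    have : {y : ℕ | 0 < y}ᶜ ∩ Set.Icc 1 N = ∅ := by
      ext y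
      simp only [Set.mem_inter_iff, Set.mem_compl_iff, Set.mem_Icc, Set.mem_empty_iff_false,
        iff_false, not_and]
      intro h1 h2
      exact absurd (show (0 : ℕ) < y by omega) h1
    rw [this]; simp
  rw [this]; simp

variable {χ i}

theorem step (hD : D χ i ∈ q) (H : ℕ → ℕ)
    (hH : (fun N : ℕ => (H N : ℝ)) =o[atTop] (fun N : ℕ => (N : ℝ)))
    (p : Finset ℕ × Finset ℕ) (hp : Good χ i p) (n : ℕ) :
    ∃ p' : Finset ℕ × Finset ℕ, Good χ i p' ∧ p.1 ⊆ p'.1 ∧ p.2 ⊆ p'.2 ∧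
      (∃ N, n ≤ N ∧ H N + n ≤ count (p'.1 : Set ℕ) N) ∧
      (∃ N, n ≤ N ∧ H N + n ≤ count (p'.2 : Set ℕ) N) := by
  classical
  obtain ⟨hB, hC, hBC⟩ := hp
  -- enlarge `C`
  set E : Set ℕ := (D χ i ∩ {y | 0 < y}) ∩ ⋂ b ∈ p.1, {y | χ (b + y) = i} with hE
  have hEq : E ∈ q := by
    refine inter_mem (inter_mem hD pos_mem) ?_
    rw [biInter_finset_mem]
    intro b hb
    exact (hB b hb).1
  obtain ⟨N, hnN, hN⟩ := frequently_count hEq H hH n
  set C' : Finset ℕ := p.2 ∪ (count_finite E N).toFinset with hC'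
  have hC'mem : ∀ c ∈ C', c ∈ p.2 ∨ c ∈ E := by
    intro c hc
    rw [hC', Finset.mem_union, Set.Finite.mem_toFinset] at hc
    rcases hc with hc | hc
    · exact Or.inl hc
    · exact Or.inr hc.1
  have hC'D : ∀ c ∈ C', c ∈ D χ i ∧ 0 < c := by
    intro c hc
    rcases hC'mem c hc with hc | hc
    · exact hC c hc
    · exact hc.1
  -- enlarge `B`
  set F : Set ℕ := (D χ i ∩ {y | 0 < y}) ∩ ⋂ c ∈ C', {y | χ (c + y) = i} with hF
  have hFq : F ∈ q := by
    refine inter_mem (inter_mem hD pos_mem) ?_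
    rw [biInter_finset_mem]
    intro c hc
    exact (hC'D c hc).1
  obtain ⟨N', hnN', hN'⟩ := frequently_count hFq H hH n
  set B' : Finset ℕ := p.1 ∪ (count_finite F N').toFinset with hB'
  have hB'mem : ∀ b ∈ B', b ∈ p.1 ∨ b ∈ F := by
    intro b hb
    rw [hB', Finset.mem_union, Set.Finite.mem_toFinset] at hb
    rcases hb with hb | hb
    · exact Or.inl hb
    · exact Or.inr hb.1
  refine ⟨(B', C'), ⟨?_, hC'D, ?_⟩, Finset.subset_union_left, Finset.subset_union_left,
    ⟨N', hnN', ?_⟩, ⟨N, hnN, ?_⟩⟩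
  · intro b hb
    rcases hB'mem b hb with hb | hb
    · exact hB b hb
    · exact hb.1
  · intro b hb c hc
    rcases hB'mem b hb with hb | hb
    · rcases hC'mem c hc with hc | hc
      · exact hBC b hb c hc
      · have := hc.2
        rw [Set.mem_iInter₂] at this
        exact this b hb
    · have := hb.2
      rw [Set.mem_iInter₂] at this
      have h2 : χ (c + b) = i := this c hc
      rw [add_comm]; exact h2
  · refine le_trans hN' ?_
    apply Set.ncard_le_ncard _ (count_finite _ _)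
    intro x hx
    refine ⟨?_, hx.2⟩
    rw [hB']
    simp only [Finset.coe_union, Set.Finite.coe_toFinset]
    exact Or.inr hx
  · refine le_trans hN ?_
    apply Set.ncard_le_ncard _ (count_finite _ _)
    intro x hx
    refine ⟨?_, hx.2⟩
    rw [hC']
    simp only [Finset.coe_union, Set.Finite.coe_toFinset]
    exact Or.inr hx

end Build

theorem infinite_of_count {B : Set ℕ} (h : ∀ n : ℕ, ∃ N, n ≤ N ∧ n ≤ count B N) :
    B.Infinite := by
  intro hfin
  obtain ⟨N, _, hN⟩ := h (B.ncard + 1)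
  have : count B N ≤ B.ncard := Set.ncard_le_ncard Set.inter_subset_left hfin
  omega

/-- **Main result.** Let `H : ℕ → ℕ` satisfy `H(N) = o(N)`.  For every finite colouring `χ` of the
positive integers there are infinite sets `B, C` of positive integers such that all sums `b + c`
have the same colour, `B(N) ≥ H(N)` for infinitely many `N` and `C(N) ≥ H(N)` for infinitely
many `N`. -/
theorem result {κ : Type*} [Finite κ] (χ : ℕ → κ) (H : ℕ → ℕ)
    (hH : (fun N : ℕ => (H N : ℝ)) =o[atTop] (fun N : ℕ => (N : ℝ))) :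
    ∃ (i : κ) (B C : Set ℕ), B.Infinite ∧ C.Infinite ∧ (∀ b ∈ B, 0 < b) ∧ (∀ c ∈ C, 0 < c) ∧
      (∀ b ∈ B, ∀ c ∈ C, χ (b + c) = i) ∧
      (∃ᶠ N in atTop, H N ≤ count B N) ∧ (∃ᶠ N in atTop, H N ≤ count C N) := by
  classical
  -- the colour
  obtain ⟨i, hi⟩ : ∃ i : κ, D χ i ∈ q := by
    have h1 : ∀ x : ℕ, ∃ i : κ, {y | χ (x + y) = i} ∈ q := by
      intro x
      obtain ⟨j, hj⟩ := Ultrafilter.eq_pure_of_finite (q.map (fun y => χ (x + y)))
      refine ⟨j, ?_⟩
      have : {j} ∈ q.map (fun y => χ (x + y)) := by rw [hj]; exact Set.mem_singleton j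
      exact this
    choose f hf using h1
    obtain ⟨j, hj⟩ := Ultrafilter.eq_pure_of_finite (q.map f)
    refine ⟨j, ?_⟩
    have h2 : {j} ∈ q.map f := by rw [hj]; exact Set.mem_singleton j
    have h3 : f ⁻¹' {j} ∈ q := h2
    refine mem_of_superset h3 ?_
    intro x hx
    have hx' : f x = j := hx
    show {y | χ (x + y) = j} ∈ q
    rw [← hx']; exact hf x
  -- the recursion
  have hstep : ∀ (p : {p : Finset ℕ × Finset ℕ // Good χ i p}) (n : ℕ),
      ∃ p' : {p : Finset ℕ × Finset ℕ // Good χ i p}, p.1.1 ⊆ p'.1.1 ∧ p.1.2 ⊆ p'.1.2 ∧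
      (∃ N, n ≤ N ∧ H N + n ≤ count (p'.1.1 : Set ℕ) N) ∧
      (∃ N, n ≤ N ∧ H N + n ≤ count (p'.1.2 : Set ℕ) N) := by
    rintro ⟨p, hp⟩ n
    obtain ⟨p', h1, h2, h3, h4, h5⟩ := step hi H hH p hp n
    exact ⟨⟨p', h1⟩, h2, h3, h4, h5⟩
  choose nxt hn1 hn2 hn3 hn4 using hstep
  let p₀ : {p : Finset ℕ × Finset ℕ // Good χ i p} := ⟨(∅, ∅), by
    refine ⟨?_, ?_, ?_⟩ <;> simp⟩
  let s : ℕ → {p : Finset ℕ × Finset ℕ // Good χ i p} := fun n => Nat.rec p₀ (fun k p => nxt p k) n
  have hs : ∀ n, s (n + 1) = nxt (s n) n := fun n => rfl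
  have hmonoB : Monotone (fun n => (s n).1.1) :=
    monotone_nat_of_le_succ (fun n => by show (s n).1.1 ⊆ (s (n + 1)).1.1; rw [hs]; exact hn1 _ _)
  have hmonoC : Monotone (fun n => (s n).1.2) :=
    monotone_nat_of_le_succ (fun n => by show (s n).1.2 ⊆ (s (n + 1)).1.2; rw [hs]; exact hn2 _ _)
  set B : Set ℕ := {b | ∃ n, b ∈ (s n).1.1} with hBdef
  set C : Set ℕ := {c | ∃ n, c ∈ (s n).1.2} with hCdef
  have hBc : ∀ n : ℕ, ∃ N, n ≤ N ∧ H N + n ≤ count B N := by
    intro n
    obtain ⟨N, h1, h2⟩ := hn3 (s n) n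
    refine ⟨N, h1, le_trans h2 (count_mono ?_ N)⟩
    intro x hx
    exact ⟨n + 1, by rw [hs]; exact hx⟩
  have hCc : ∀ n : ℕ, ∃ N, n ≤ N ∧ H N + n ≤ count C N := by
    intro n
    obtain ⟨N, h1, h2⟩ := hn4 (s n) n
    refine ⟨N, h1, le_trans h2 (count_mono ?_ N)⟩
    intro x hx
    exact ⟨n + 1, by rw [hs]; exact hx⟩
  refine ⟨i, B, C, ?_, ?_, ?_, ?_, ?_, ?_, ?_⟩
  · apply infinite_of_count
    intro n
    obtain ⟨N, h1, h2⟩ := hBc n
    exact ⟨N, h1, by omega⟩
  · apply infinite_of_count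
    intro n
    obtain ⟨N, h1, h2⟩ := hCc n
    exact ⟨N, h1, by omega⟩
  · rintro b ⟨n, hn⟩
    exact ((s n).2.1 b hn).2
  · rintro c ⟨n, hn⟩
    exact ((s n).2.2.1 c hn).2
  · rintro b ⟨n, hn⟩ c ⟨m, hm⟩
    have hb : b ∈ (s (max n m)).1.1 := hmonoB (le_max_left n m) hn
    have hc : c ∈ (s (max n m)).1.2 := hmonoC (le_max_right n m) hm
    exact (s (max n m)).2.2.2 b hb c hc
  · rw [frequently_atTop]
    intro n
    obtain ⟨N, h1, h2⟩ := hBc n
    exact ⟨N, h1, by omega⟩
  · rw [frequently_atTop]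
    intro n
    obtain ⟨N, h1, h2⟩ := hCc n
    exact ⟨N, h1, by omega⟩

end Pool.Agent.Results.MP_870dc7_co.DenseSumsets
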